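import Pool.Agent.L7h48.RT.Stm

set_option autoImplicit false

/-!
# Project RT: part FLP (changing one pair changes `F` by at most `l`)
-/

namespace Pool.Agent.L7h88.RT

open Pool.Agent.L7h48.RT

theorem adm_fin {n c : ℕ} (k : ℕ) (l : ℝ) (x : Col n c) :
    (Phi l '' {H : SimpleGraph (Fin n) | Rainbow x H ∧ H.edgeSet.ncard + k ≤ c}).Finite :=
  (Set.toFinite _).image _

theorem adm_bot {n c : ℕ} (k : ℕ) (x : Col n c) (hk : k ≤ c) :
    Rainbow x (⊥ : SimpleGraph (Fin n)) ∧ (⊥ : SimpleGraph (Fin n)).edgeSet.ncard + k ≤ c := by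
  refine ⟨⟨?_, ?_⟩, ?_⟩
  · intro e he
    simp at he
  · intro e f he
    simp at he
  · simpa using hk

theorem half (h1 : S_CUT) {n c k : ℕ} {l : ℝ} (x y : Col n c) (e : Pr n) (hk : k ≤ c) (hl : 0 ≤ l)
    (hxy : ∀ e' : Pr n, e' ≠ e → y e' = x e') : F k l y ≤ F k l x + l := by
  refine csSup_le ⟨_, ⟨⊥, adm_bot k y hk, rfl⟩⟩ ?_
  rintro _ ⟨H, ⟨⟨ha, hb⟩, hc⟩, rfl⟩
  have hsub : (H.deleteEdges {e.1}).edgeSet ⊆ H.edgeSet := by
    rw [SimpleGraph.edgeSet_deleteEdges]
    exact Set.sdiff_subset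
  have hne : ∀ e' : Pr n, e'.1 ∈ (H.deleteEdges {e.1}).edgeSet → e' ≠ e := by
    intro e' he' h
    rw [SimpleGraph.edgeSet_deleteEdges] at he'
    exact he'.2 (by rw [h]; rfl)
  have hR : Rainbow x (H.deleteEdges {e.1}) := by
    refine ⟨fun e' he' => ?_, fun e' f' he' hf' hef => ?_⟩
    · rw [← hxy e' (hne e' he')]
      exact ha e' (hsub he')
    · refine hb e' f' (hsub he') (hsub hf') ?_
      rw [hxy e' (hne e' he'), hxy f' (hne f' hf')]
      exact hef
  have hcard : (H.deleteEdges {e.1}).edgeSet.ncard + k ≤ c :=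
    (Nat.add_le_add_right (Set.ncard_le_ncard hsub (Set.toFinite _)) k).trans hc
  have h2 : Phi l (H.deleteEdges {e.1}) ≤ F k l x :=
    le_csSup (adm_fin k l x).bddAbove ⟨_, ⟨hR, hcard⟩, rfl⟩
  have h3 := h1 n l H e.1 hl
  linarith

theorem s_FLP (h1 : S_CUT) : S_FLP := by
  intro n c k l x e s hk hl
  have e1 : F k l (Function.update x e s) ≤ F k l x + l :=
    half h1 x (Function.update x e s) e hk hl (fun e' he' => Function.update_of_ne he' _ _)
  have e2 : F k l x ≤ F k l (Function.update x e s) + l :=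
    half h1 (Function.update x e s) x e hk hl (fun e' he' => (Function.update_of_ne he' _ _).symm)
  rw [abs_le]
  constructor <;> linarith

end Pool.Agent.L7h88.RT
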